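import Pool.Agent.H2.TW.TopB

/-!
# Symbolic matrices of bounded treewidth in which every variable occurs boundedly often

Authors: the owners of the modules of the folders H2/RK and H2/TW (helpers 2 and 44 and many
others).  Paper proof: h2_readk_nets.md.

* `Fq F (Fin n)`: arithmetic formulas whose leaves are constants or univariate polynomials of one
  variable.
* `BT α`, `BT.Valid`: binary tree decompositions.
* `Net F (Fin n) W`: tree networks of width `W`; `pot`: the potential (sum of the ranks of the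
  annuli of the network).
* `LocMax t r₀ R T a`: no grid point that differs from `a` in at most `R` coordinates has a larger
  potential.
-/

namespace Pool.Agent.Results.MP_966f71_lc.BoundedReadTreewidth

open Pool.Agent.H2.RK Pool.Agent.H2.TW Matrix

/-- the coordinate `0` of `F^(2^(w+1))` -/
def c0 (w : ℕ) : Fin (2 ^ (w + 1)) := ⟨0, by positivity⟩

/-- `t` is a network of width `2^(w+1)` for the determinant of the submatrix `A.submatrix f g`: it
has size at most `S`, every variable labels at most `k` leaves, the leaves have degree at most `δ`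
and the coordinate `0` of the value is the determinant -/
def IsMinorNet {F : Type} [Field F] {n m m' s w : ℕ} (k δ S : ℕ)
    (A : Matrix (Fin m) (Fin m') (Fq F (Fin n))) (f : Fin s ↪ Fin m) (g : Fin s ↪ Fin m')
    (t : Net F (Fin n) (2 ^ (w + 1))) : Prop :=
  t.size ≤ S ∧ (∀ v, t.cnt v ≤ k) ∧ LeafDeg δ t ∧
    ∀ x, t.val x (c0 w) = ((evM A x).submatrix f g).det

/-- `f'` extends `f` by one element -/
def Ext {s m : ℕ} (f' : Fin (s + 1) ↪ Fin m) (f : Fin s ↪ Fin m) : Prop :=
  ∀ i : Fin s, f' i.castSucc = f i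

theorem result (w k : ℕ) : ∃ R : ℕ, ∀ (F : Type) [Field F] [Infinite F] (n m m' δ S : ℕ)
    (A : Matrix (Fin m) (Fin m') (Fq F (Fin n))) (D : BT (Fin m ⊕ Fin m')) (T : Finset F),
    D.Valid → (∀ B ∈ D.bags, B.card ≤ w + 1) →
    (∀ i j, (A i j).poly ≠ 0 → ∃ B ∈ D.bags, Sum.inl i ∈ B ∧ Sum.inr j ∈ B) →
    (∀ v, ∑ i, ∑ j, (A i j).occ v ≤ k) → (∀ i j, (A i j).DegLe δ) →
    D.size + (∑ i, ∑ j, ((A i j).size + 1)) + 2 ≤ S →
    k * δ * (2 ^ (w + 1) * S ^ 2 + 1) < T.card →
      (∀ (s : ℕ) (f : Fin s ↪ Fin m) (g : Fin s ↪ Fin m'),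
        ∃ t : Net F (Fin n) (2 ^ (w + 1)), IsMinorNet k δ S A f g t) ∧
      (∀ (s : ℕ) (f : Fin s ↪ Fin m) (g : Fin s ↪ Fin m') (t : Net F (Fin n) (2 ^ (w + 1))),
        IsMinorNet k δ S A f g t →
          (∀ x, pot t (c0 w) x ≤ 2 ^ (w + 1) * S ^ 2 + 1) ∧
          ∀ a, LocMax t (c0 w) R T a →
            (((evM A a).submatrix f g).det = 0 ↔ ((polyM A).submatrix f g).det = 0)) ∧
      ∀ r, symRank (polyM A) < r ↔ ∃ s < r, ∃ (f : Fin s ↪ Fin m) (g : Fin s ↪ Fin m'),
        (∃ x, ((evM A x).submatrix f g).det ≠ 0) ∧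
        ∀ (f' : Fin (s + 1) ↪ Fin m) (g' : Fin (s + 1) ↪ Fin m'), Ext f' f → Ext g' g →
          ∃ (t : Net F (Fin n) (2 ^ (w + 1))) (a : Fin n → F), IsMinorNet k δ S A f' g' t ∧
            LocMax t (c0 w) R T a ∧ ((evM A a).submatrix f' g').det = 0 := by
  refine ⟨RR (2 ^ (w + 1)) k, ?_⟩
  intro F _ _ n m m' δ S A D T hD hw hcov hk hδ hS hT
  have hex : ∀ (s : ℕ) (f : Fin s ↪ Fin m) (g : Fin s ↪ Fin m'),
      ∃ t : Net F (Fin n) (2 ^ (w + 1)), IsMinorNet k δ S A f g t :=
    fun s f g => exists_minorNet w k δ S A D hD hw hcov hk hδ hS s f g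
  have hTt : ∀ t : Net F (Fin n) (2 ^ (w + 1)), t.size ≤ S →
      k * δ * (2 ^ (w + 1) * t.size ^ 2 + 1) < T.card := by
    intro t ht
    refine lt_of_le_of_lt ?_ hT
    gcongr
  have hev : ∀ (s : ℕ) (f : Fin s → Fin m) (g : Fin s → Fin m') (x : Fin n → F),
      (evM A x).submatrix f g =
        ((polyM A).submatrix f g).map (MvPolynomial.eval x) := by
    intro s f g x
    rw [evM_eq_map]
    rfl
  have hloc : ∀ (s : ℕ) (f : Fin s ↪ Fin m) (g : Fin s ↪ Fin m')
      (t : Net F (Fin n) (2 ^ (w + 1))), IsMinorNet k δ S A f g t →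
      ∀ a, LocMax t (c0 w) (RR (2 ^ (w + 1)) k) T a →
        (((evM A a).submatrix f g).det = 0 ↔ ((polyM A).submatrix f g).det = 0) := by
    intro s f g t ht a ha
    rw [hev]
    exact det_locMax ((polyM A).submatrix f g) t _ ht.2.1 ht.2.2.1
      (fun x => by rw [ht.2.2.2 x, hev]) T (hTt t ht.1) a ha
  have hTne : T.Nonempty := by
    rw [← Finset.card_pos]
    omega
  refine ⟨hex, fun s f g t ht => ⟨fun x => ?_, hloc s f g t ht⟩, fun r => ?_⟩
  · refine (pot_le t _ x).trans ?_
    have := ht.1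
    gcongr
  · -- the rank over the field of rational functions
    set K := FractionRing (MvPolynomial (Fin n) F)
    have hdet : ∀ (s : ℕ) (f : Fin s → Fin m) (g : Fin s → Fin m'),
        ((((polyM A).map (algebraMap (MvPolynomial (Fin n) F) K)).submatrix f g).det = 0 ↔
          ((polyM A).submatrix f g).det = 0) := by
      intro s f g
      have h1 : (((polyM A).map (algebraMap (MvPolynomial (Fin n) F) K)).submatrix f g).det =
          algebraMap (MvPolynomial (Fin n) F) K ((polyM A).submatrix f g).det := by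
        rw [RingHom.map_det]
        rfl
      rw [h1]
      exact (IsFractionRing.injective (MvPolynomial (Fin n) F) K).eq_iff' (map_zero _)
    have hval : ∀ (s : ℕ) (f : Fin s → Fin m) (g : Fin s → Fin m'),
        ((polyM A).submatrix f g).det ≠ 0 ↔ ∃ x, ((evM A x).submatrix f g).det ≠ 0 := by
      intro s f g
      constructor
      · intro h
        by_contra hc
        push Not at hc
        apply h
        apply MvPolynomial.funext
        intro x
        have := hc x
        rw [hev] at this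
        rw [map_zero, RingHom.map_det]
        exact this
      · rintro ⟨x, hx⟩ h
        apply hx
        rw [hev, ← RingHom.mapMatrix_apply, ← RingHom.map_det, h, map_zero]
    unfold symRank
    rw [rank_lt_iff_border]
    constructor
    · rintro ⟨s, hs, f, g, hfg, hext⟩
      refine ⟨s, hs, f, g, (hval s f g).1 (fun h => hfg ((hdet s f g).2 h)), ?_⟩
      intro f' g' hf' hg'
      obtain ⟨t, ht⟩ := hex (s + 1) f' g'
      obtain ⟨a, ha⟩ := exists_locMax t (c0 w) (RR (2 ^ (w + 1)) k) T hTne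
      exact ⟨t, a, ht, ha, (hloc _ f' g' t ht a ha).2
        ((hdet _ f' g').1 (hext f' g' hf' hg'))⟩
    · rintro ⟨s, hs, f, g, hfg, hext⟩
      refine ⟨s, hs, f, g, fun h => (hval s f g).2 hfg ((hdet s f g).1 h), ?_⟩
      intro f' g' hf' hg'
      obtain ⟨t, a, ht, ha, h0⟩ := hext f' g' hf' hg'
      exact (hdet _ f' g').2 ((hloc _ f' g' t ht a ha).1 h0)

end Pool.Agent.Results.MP_966f71_lc.BoundedReadTreewidth
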