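import Pool.Agent.H22.DE.Ker

set_option autoImplicit false

namespace Pool.Agent.Results.MP_966f71_lc.DenseMatrices

/-- Three classes of square matrices: all, symmetric, skew-symmetric. -/
inductive Kind : Type
  | all
  | symmetric
  | skew

/-- `M` belongs to the class `κ`. -/
def Kind.Mem {F : Type} [Field F] {n : ℕ} (κ : Kind) (M : Matrix (Fin n) (Fin n) F) : Prop :=
  match κ with
  | .all => True
  | .symmetric => M.transpose = M
  | .skew => M.transpose = -M

/-- The dimension of the space of `n × n` matrices of the class `κ`. -/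
def Kind.dim (κ : Kind) (n : ℕ) : ℕ :=
  match κ with
  | .all => n * n
  | .symmetric => n * (n + 1) / 2
  | .skew => n * (n - 1) / 2

/-- The value of the rank formula: `n - max(e, e')`, `n - e`, and the largest even number which is at
most `n - e`. -/
def Kind.formula (κ : Kind) (n e e' : ℕ) : ℕ :=
  match κ with
  | .all => n - max e e'
  | .symmetric => n - e
  | .skew => 2 * ((n - e) / 2)

/-- The matrix `A(a) = A₀ + ∑ i, a_i A_i` over `F`. -/
def value {F : Type} [Field F] {m n N : ℕ} (A₀ : Matrix (Fin m) (Fin n) F)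
    (A : Fin N → Matrix (Fin m) (Fin n) F) (a : Fin N → F) : Matrix (Fin m) (Fin n) F :=
  A₀ + ∑ i, a i • A i

/-- The matrix `A(x) = A₀ + ∑ i, x_i A_i` over the polynomial ring `F[x_1, ..., x_N]`. -/
noncomputable def symbolic {F : Type} [Field F] {m n N : ℕ} (A₀ : Matrix (Fin m) (Fin n) F)
    (A : Fin N → Matrix (Fin m) (Fin n) F) :
    Matrix (Fin m) (Fin n) (MvPolynomial (Fin N) F) :=
  A₀.map MvPolynomial.C + ∑ i, (MvPolynomial.X i : MvPolynomial (Fin N) F) •
    (A i).map MvPolynomial.C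

/-- The rank of `A(x)` over the field `F(x_1, ..., x_N)` of rational functions. -/
noncomputable def symRank {F : Type} [Field F] {m n N : ℕ} (A₀ : Matrix (Fin m) (Fin n) F)
    (A : Fin N → Matrix (Fin m) (Fin n) F) : ℕ :=
  ((symbolic A₀ A).map
    (algebraMap (MvPolynomial (Fin N) F) (FractionRing (MvPolynomial (Fin N) F)))).rank

/-- The column vector `k` is small: `dim V k ≤ t`, where `V` is the span of the `A_i`. -/
def SmallCol {F : Type} [Field F] {n N : ℕ} (A : Fin N → Matrix (Fin n) (Fin n) F) (t : ℕ)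
    (k : Fin n → F) : Prop :=
  Module.finrank F (Submodule.span F (Set.range fun i => (A i).mulVec k)) ≤ t

/-- The row vector `w` is small: `dim w V ≤ t`, where `V` is the span of the `A_i`. -/
def SmallRow {F : Type} [Field F] {n N : ℕ} (A : Fin N → Matrix (Fin n) (Fin n) F) (t : ℕ)
    (w : Fin n → F) : Prop :=
  Module.finrank F (Submodule.span F (Set.range fun i => (A i).vecMul w)) ≤ t

/-- `b` arises from `a` by changing at most `r` coordinates to values in `T`, and
`rank A(a) < rank A(b)`. -/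
def Improves {F : Type} [Field F] {n N : ℕ} (A₀ : Matrix (Fin n) (Fin n) F)
    (A : Fin N → Matrix (Fin n) (Fin n) F) (T : Finset F) (r : ℕ) (a b : Fin N → F) : Prop :=
  {i | b i ≠ a i}.ncard ≤ r ∧ (∀ i, b i = a i ∨ b i ∈ T) ∧
    (value A₀ A a).rank < (value A₀ A b).rank

/-- The matrices `A_i K`, `i ∈ I`, span all `A_i K`, and the matrices `L A_i`, `i ∈ I`, span all
`L A_i`. -/
def Spans {F : Type} [Field F] {n N s s' : ℕ} (A : Fin N → Matrix (Fin n) (Fin n) F)
    (K : Matrix (Fin n) (Fin s) F) (L : Matrix (Fin s') (Fin n) F) (I : Finset (Fin N)) : Prop :=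
  (∀ i, A i * K ∈ Submodule.span F (Set.range fun j : I => A j * K)) ∧
    ∀ i, L * A i ∈ Submodule.span F (Set.range fun j : I => L * A j)

/-- `b = a + z y`, where `y` has entries in `S₁` and at most `r` nonzero entries, all at places in
`I`, and `z ∈ S₂`; passing from `a` to `b` does not decrease the ranks of `A`, `A K` and `L A`, and
increases the rank of `A K` or the rank of `L A`. -/
def Shifts {F : Type} [Field F] {n N s s' : ℕ} (A₀ : Matrix (Fin n) (Fin n) F)
    (A : Fin N → Matrix (Fin n) (Fin n) F) (K : Matrix (Fin n) (Fin s) F)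
    (L : Matrix (Fin s') (Fin n) F) (I : Finset (Fin N)) (S₁ S₂ : Finset F) (r : ℕ)
    (a b : Fin N → F) : Prop :=
  (∃ y : Fin N → F, ∃ z ∈ S₂, b = a + z • y ∧ (∀ i, y i ∈ S₁) ∧ (∀ i, y i ≠ 0 → i ∈ I) ∧
    {i | y i ≠ 0}.ncard ≤ r) ∧
  (value A₀ A a).rank ≤ (value A₀ A b).rank ∧
  (value A₀ A a * K).rank ≤ (value A₀ A b * K).rank ∧
  (L * value A₀ A a).rank ≤ (L * value A₀ A b).rank ∧
  (value A₀ A a * K).rank + (L * value A₀ A a).rank <
    (value A₀ A b * K).rank + (L * value A₀ A b).rank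

/-- The columns or rows in `B` span the kernel of `M`; those in `C` span the left kernel. -/
def SpanKernels {F : Type} [Field F] {n : ℕ} (M : Matrix (Fin n) (Fin n) F)
    (B C : Set (Fin n → F)) : Prop :=
  (∀ k, M.mulVec k = 0 ↔ k ∈ Submodule.span F B) ∧ ∀ w, M.vecMul w = 0 ↔ w ∈ Submodule.span F C

/-- A small vector which is not a combination of the columns of `K`, resp. of the rows of `L`, is
found in `B`, resp. (all matrices) in `C`, or (skew-symmetric matrices) it is `l - s k` with `k`, `l`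
in `B`, `k` not small. -/
def Extends {F : Type} [Field F] {n N s s' : ℕ} (κ : Kind) (A : Fin N → Matrix (Fin n) (Fin n) F)
    (t : ℕ) (K : Matrix (Fin n) (Fin s) F) (L : Matrix (Fin s') (Fin n) F)
    (B C : Set (Fin n → F)) : Prop :=
  (∃ k ∈ B, SmallCol A t k ∧ k ∉ Submodule.span F (Set.range K.col)) ∨
  (κ = Kind.all ∧ ∃ w ∈ C, SmallRow A t w ∧ w ∉ Submodule.span F (Set.range L.row)) ∨
  (κ = Kind.skew ∧ ∃ k ∈ B, ∃ l ∈ B, ∃ z : F, ¬ SmallCol A t k ∧ SmallCol A t (l - z • k) ∧
    l - z • k ∉ Submodule.span F (Set.range K.col))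

/-- The rank of `A(x) K` is the rank of at most `s (|I| + 1)` rows of it, without the variables
outside `I`. -/
def RowKernel {F : Type} [Field F] {n N s : ℕ} (A₀ : Matrix (Fin n) (Fin n) F)
    (A : Fin N → Matrix (Fin n) (Fin n) F) (K : Matrix (Fin n) (Fin s) F)
    (I : Finset (Fin N)) : Prop :=
  ∃ (m : ℕ) (f : Fin m → Fin n) (g : Fin I.card → Fin N), m ≤ s * (I.card + 1) ∧
    Function.Injective f ∧ Function.Injective g ∧ (∀ j, g j ∈ I) ∧
    symRank ((A₀ * K).submatrix f id) (fun j => (A (g j) * K).submatrix f id) =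
      symRank (A₀ * K) (fun i => A i * K)

/-- The rank of `L A(x)` is the rank of at most `s (|I| + 1)` columns of it, without the variables
outside `I`. -/
def ColKernel {F : Type} [Field F] {n N s : ℕ} (A₀ : Matrix (Fin n) (Fin n) F)
    (A : Fin N → Matrix (Fin n) (Fin n) F) (L : Matrix (Fin s) (Fin n) F)
    (I : Finset (Fin N)) : Prop :=
  ∃ (m : ℕ) (f : Fin m → Fin n) (g : Fin I.card → Fin N), m ≤ s * (I.card + 1) ∧
    Function.Injective f ∧ Function.Injective g ∧ (∀ j, g j ∈ I) ∧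
    symRank ((L * A₀).submatrix id f) (fun j => (L * A (g j)).submatrix id f) =
      symRank (L * A₀) (fun i => L * A i)

section aux

open Pool.Agent.H22.DE Matrix Module

variable {F : Type} [Field F] {n N : ℕ}

private lemma small_iff (A : Fin N → Matrix (Fin n) (Fin n) F) (t : ℕ) (k : Fin n → F) :
    SmallCol A t k ↔ k ∈ sm (Submodule.span F (Set.range A)) t := by
  unfold SmallCol sm
  rw [Set.mem_ofPred_eq, Submodule.map_span, ← Set.range_comp]
  rfl

private lemma smallRow_iff (A : Fin N → Matrix (Fin n) (Fin n) F) (t : ℕ) (w : Fin n → F) :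
    SmallRow A t w ↔ w ∈ smL (Submodule.span F (Set.range A)) t := by
  unfold SmallRow smL
  rw [Set.mem_ofPred_eq, Submodule.map_span, ← Set.range_comp]
  rfl

private lemma two_tri (n : ℕ) : 2 * (n * (n + 1) / 2) = n * (n + 1) :=
  Nat.mul_div_cancel' (Nat.even_mul_succ_self n).two_dvd

private lemma two_tri' (n : ℕ) : 2 * (n * (n - 1) / 2) = n * (n - 1) :=
  Nat.mul_div_cancel' (Nat.even_mul_pred_self n).two_dvd

private lemma hV_sym {c D : ℕ} (h : Kind.symmetric.dim n ≤ D + c * n) :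
    Fintype.card (Fin n) * (Fintype.card (Fin n) + 1) ≤ 2 * D + 2 * c * Fintype.card (Fin n) := by
  rw [Fintype.card_fin]
  have h1 := two_tri n
  have h2 : n * (n + 1) / 2 ≤ D + c * n := h
  have e : 2 * c * n = 2 * (c * n) := by ring
  omega

private lemma hV_skew {c D : ℕ} (h : Kind.skew.dim n ≤ D + c * n) :
    Fintype.card (Fin n) * Fintype.card (Fin n) ≤
      2 * D + 2 * c * Fintype.card (Fin n) + Fintype.card (Fin n) := by
  rw [Fintype.card_fin]
  have h1 := two_tri' n
  have h2 : n * (n - 1) / 2 ≤ D + c * n := h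
  have e : 2 * c * n = 2 * (c * n) := by ring
  have h3 : n * n ≤ n * (n - 1) + n := by
    rcases Nat.eq_zero_or_pos n with h | h
    · subst h
      simp
    · obtain ⟨m, rfl⟩ := Nat.exists_eq_add_of_le h
      have : 1 + m - 1 = m := by omega
      rw [this]
      nlinarith
  omega

private lemma smL_sym (V : Submodule F (Matrix (Fin n) (Fin n) F)) (h : ∀ M ∈ V, Mᵀ = M) (t : ℕ) :
    smL V t = sm V t := by
  ext w
  have : V.map (evL w) = V.map (evR w) := by
    ext z
    constructor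
    · rintro ⟨M, hM, rfl⟩
      exact ⟨M, hM, (mulVec_sym (h M hM) w).symm⟩
    · rintro ⟨M, hM, rfl⟩
      exact ⟨M, hM, mulVec_sym (h M hM) w⟩
  unfold smL sm
  rw [Set.mem_ofPred_eq, Set.mem_ofPred_eq, this]

private lemma smL_alt (V : Submodule F (Matrix (Fin n) (Fin n) F)) (h : ∀ M ∈ V, Mᵀ = -M) (t : ℕ) :
    smL V t = sm V t := by
  ext w
  have : V.map (evL w) = V.map (evR w) := by
    ext z
    constructor
    · rintro ⟨M, hM, rfl⟩
      refine ⟨-M, V.neg_mem hM, ?_⟩
      change (-M) *ᵥ w = w ᵥ* M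
      rw [mulVec_alt (h M hM), Matrix.neg_mulVec]
    · rintro ⟨M, hM, rfl⟩
      refine ⟨-M, V.neg_mem hM, ?_⟩
      change w ᵥ* (-M) = M *ᵥ w
      rw [Matrix.vecMul_neg, mulVec_alt (h M hM), neg_neg]
  unfold smL sm
  rw [Set.mem_ofPred_eq, Set.mem_ofPred_eq, this]

/-- independent small vectors are few -/
private lemma card_small {V : Submodule F (Matrix (Fin n) (Fin n) F)} {t d s : ℕ}
    (h : finrank F (Submodule.span F (sm V t)) ≤ d) (K : Matrix (Fin n) (Fin s) F)
    (hK : K.rank = s) (hs : ∀ j, (fun i => K i j) ∈ sm V t) : s ≤ d := by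
  have h1 : Submodule.span F (Set.range K.col) ≤ Submodule.span F (sm V t) := by
    refine Submodule.span_mono ?_
    rintro _ ⟨j, rfl⟩
    exact hs j
  have h2 := Submodule.finrank_mono h1
  rw [← Matrix.rank_eq_finrank_span_cols, hK] at h2
  exact h2.trans h

private lemma card_smallRow {V : Submodule F (Matrix (Fin n) (Fin n) F)} {t d s : ℕ}
    (h : finrank F (Submodule.span F (smL V t)) ≤ d) (L : Matrix (Fin s) (Fin n) F)
    (hL : L.rank = s) (hs : ∀ j, L j ∈ smL V t) : s ≤ d := by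
  have h1 : Submodule.span F (Set.range L.row) ≤ Submodule.span F (smL V t) := by
    refine Submodule.span_mono ?_
    rintro _ ⟨j, rfl⟩
    exact hs j
  have h2 := Submodule.finrank_mono h1
  rw [← Matrix.rank_eq_finrank_span_row, hL] at h2
  exact h2.trans h

private lemma value_eq {m : ℕ} (A₀ : Matrix (Fin m) (Fin n) F) (A : Fin N → Matrix (Fin m) (Fin n) F)
    (a : Fin N → F) : value A₀ A a = lin A₀ A a := rfl

private lemma symRank_eq {m : ℕ} (A₀ : Matrix (Fin m) (Fin n) F)
    (A : Fin N → Matrix (Fin m) (Fin n) F) : symRank A₀ A = sr (sy A₀ A) := rfl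

private lemma nd_zero (y : Fin N → F) : {i | y i ≠ 0}.ncard = nd y 0 := rfl

/-- Part (1). -/
private lemma part1 [Infinite F] (κ : Kind) (hκ : κ = Kind.all ∨ (2 : F) ≠ 0) (c : ℕ)
    (A₀ : Matrix (Fin n) (Fin n) F) (A : Fin N → Matrix (Fin n) (Fin n) F)
    (h₀ : κ.Mem A₀) (hA : ∀ i, κ.Mem (A i))
    (hc : κ.dim n ≤ Module.finrank F (Submodule.span F (Set.range A)) + c * n)
    (T : Finset F) (hT : n < T.card) (a : Fin N → F) (ha : (value A₀ A a).rank < symRank A₀ A) :
    ∃ b, Improves A₀ A T (10 * (c + 2)) a b := by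
  have key : ∃ b : Fin N → F, nd b a ≤ 10 * (c + 2) ∧ (lin A₀ A a).rank < (lin A₀ A b).rank := by
    cases κ with
    | all =>
      obtain ⟨b, hb, hr⟩ := gen_search A₀ A (c := c) (by rw [Fintype.card_fin]; exact hc) a ha
      exact ⟨b, by omega, hr⟩
    | symmetric =>
      exact sym_search (hκ.resolve_left (by simp)) A₀ A h₀ hA (c := c) (hV_sym hc) a ha
    | skew =>
      exact alt_search (hκ.resolve_left (by simp)) A₀ A h₀ hA (c := c) (hV_skew hc) a ha
  obtain ⟨b, hb, hr⟩ := key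
  obtain ⟨b', h1, h2, h3⟩ := improve_grid A₀ A T (by rw [Fintype.card_fin]; exact hT) a b hb hr
  exact ⟨b', h1, h2, h3⟩

/-- Part (2). -/
private lemma part2 [Infinite F] (κ : Kind) (hκ : κ = Kind.all ∨ (2 : F) ≠ 0) (c : ℕ)
    (A₀ : Matrix (Fin n) (Fin n) F) (A : Fin N → Matrix (Fin n) (Fin n) F)
    (h₀ : κ.Mem A₀) (hA : ∀ i, κ.Mem (A i))
    (hc : κ.dim n ≤ Module.finrank F (Submodule.span F (Set.range A)) + c * n)
    (hn : 10 * (c + 2) ≤ n) :
    ∃ (u v : ℕ) (P : Matrix (Fin n) (Fin u) F) (Q : Matrix (Fin v) (Fin n) F),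
      u ≤ 2 * c ∧ v ≤ 2 * c ∧ P.rank = u ∧ Q.rank = v ∧
      (∀ j, SmallCol A (4 * c + 7) (P.col j)) ∧ (∀ j, SmallRow A (4 * c + 7) (Q.row j)) ∧
      symRank A₀ A = κ.formula n (u - symRank (A₀ * P) (fun i => A i * P))
        (v - symRank (Q * A₀) (fun i => Q * A i)) := by
  cases κ with
  | all =>
    obtain ⟨u, v, P, Q, hu, hv, hP, hQ, hP', hQ', hf, -⟩ := gen_all A₀ A (c := c)
      (by rw [Fintype.card_fin]; exact hc) (by rw [Fintype.card_fin]; omega)
    refine ⟨u, v, P, Q, hu, hv, hP, hQ, ?_, ?_, ?_⟩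
    · intro j
      rw [small_iff]
      exact (show finrank F _ ≤ 2 * c + 3 from hP' j).trans (by omega)
    · intro j
      rw [smallRow_iff]
      exact (show finrank F _ ≤ 2 * c + 3 from hQ' j).trans (by omega)
    · rw [Fintype.card_fin, sy_mul, mul_sy] at hf
      rw [symRank_eq, symRank_eq, symRank_eq]
      show _ = n - max _ _
      omega
  | symmetric =>
    obtain ⟨u, P, hu, hP, hP', hf, -⟩ := sym_all (hκ.resolve_left (by simp)) A₀ A h₀ hA (c := c)
      (hV_sym hc) (by rw [Fintype.card_fin]; exact hn)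
    refine ⟨u, 0, P, 0, hu, Nat.zero_le _, hP, ?_, ?_, fun j => j.elim0, ?_⟩
    · exact Nat.le_zero.1 ((Matrix.rank_le_card_height _).trans (by simp))
    · intro j
      rw [small_iff]
      exact hP' j
    · have h1 := sr_le_width (sy A₀ A * P.map (MvPolynomial.C (σ := Fin N)))
      rw [Fintype.card_fin] at hf h1
      rw [sy_mul] at hf h1
      rw [symRank_eq, symRank_eq]
      show _ = n - _
      omega
  | skew =>
    obtain ⟨u, P, hu, hP, hP', hf, -⟩ := alt_all (hκ.resolve_left (by simp)) A₀ A h₀ hA (c := c)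
      (hV_skew hc) (by rw [Fintype.card_fin]; exact hn)
    refine ⟨u, 0, P, 0, hu, Nat.zero_le _, hP, ?_, ?_, fun j => j.elim0, ?_⟩
    · exact Nat.le_zero.1 ((Matrix.rank_le_card_height _).trans (by simp))
    · intro j
      rw [small_iff]
      exact hP' j
    · have h1 := sr_le_width (sy A₀ A * P.map (MvPolynomial.C (σ := Fin N)))
      rw [Fintype.card_fin] at hf h1
      rw [sy_mul] at hf h1
      rw [symRank_eq, symRank_eq]
      show _ = 2 * ((n - _) / 2)
      rw [hf]
      congr 2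
      omega

/-- Part (3), the number of small vectors. -/
private lemma part3 [Infinite F] (κ : Kind) (hκ : κ = Kind.all ∨ (2 : F) ≠ 0) (c : ℕ)
    (A : Fin N → Matrix (Fin n) (Fin n) F) (hA : ∀ i, κ.Mem (A i))
    (hc : κ.dim n ≤ Module.finrank F (Submodule.span F (Set.range A)) + c * n)
    (hn : 10 * (c + 2) ≤ n) :
    finrank F (Submodule.span F (sm (Submodule.span F (Set.range A)) (4 * c + 7))) ≤ 2 * c ∧
    finrank F (Submodule.span F (smL (Submodule.span F (Set.range A)) (4 * c + 7))) ≤ 2 * c := by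
  cases κ with
  | all =>
    exact ⟨finrank_sm_gen _ (by rw [Fintype.card_fin]; exact hc) (by rw [Fintype.card_fin]; exact hn),
      finrank_smL_gen _ (by rw [Fintype.card_fin]; exact hc) (by rw [Fintype.card_fin]; exact hn)⟩
  | symmetric =>
    rw [smL_sym _ (span_sym A hA)]
    have := finrank_sm_sym _ (span_sym A hA) (c := c) (hV_sym hc)
      (by rw [Fintype.card_fin]; exact hn)
    exact ⟨this, this⟩
  | skew =>
    rw [smL_alt _ (span_alt A hA)]
    have := finrank_sm_alt (hκ.resolve_left (by simp)) _ (span_alt A hA) (c := c) (hV_skew hc)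
      (by rw [Fintype.card_fin]; exact hn)
    exact ⟨this, this⟩

/-- Part (3), the criterion. -/
private lemma part4 [Infinite F] (κ : Kind) (hκ : κ = Kind.all ∨ (2 : F) ≠ 0) (c : ℕ)
    (A₀ : Matrix (Fin n) (Fin n) F) (A : Fin N → Matrix (Fin n) (Fin n) F)
    (h₀ : κ.Mem A₀) (hA : ∀ i, κ.Mem (A i))
    (hc : κ.dim n ≤ Module.finrank F (Submodule.span F (Set.range A)) + c * n)
    (hn : 10 * (c + 2) ≤ n) {s s' : ℕ} (K : Matrix (Fin n) (Fin s) F)
    (L : Matrix (Fin s') (Fin n) F) (a : Fin N → F) (B C : Set (Fin n → F))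
    (hBC : SpanKernels (value A₀ A a) B C)
    (hst : ∀ b : Fin N → F, nd b a ≤ 4 → (lin A₀ A b).rank ≤ (lin A₀ A a).rank)
    (hK : sr (sy A₀ A * K.map (MvPolynomial.C (σ := Fin N))) = (lin A₀ A a * K).rank)
    (hL : sr (L.map (MvPolynomial.C (σ := Fin N)) * sy A₀ A) = (L * lin A₀ A a).rank)
    (hE : ¬ Extends κ A (4 * c + 7) K L B C) :
    sr (sy A₀ A) ≤ (lin A₀ A a).rank := by
  unfold Extends at hE
  rw [not_or, not_or] at hE
  obtain ⟨hE1, hE2, hE3⟩ := hE
  have hker : ∀ k ∈ B, k ∈ sm (Submodule.span F (Set.range A)) (4 * c + 7) →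
      k ∈ LinearMap.range K.mulVecLin := by
    intro k hk hks
    rw [Matrix.range_mulVecLin]
    by_contra hno
    exact hE1 ⟨k, hk, (small_iff A _ k).2 hks, hno⟩
  cases κ with
  | all =>
    refine gen_crit A₀ A (c := c) (by rw [Fintype.card_fin]; exact hc)
      (by rw [Fintype.card_fin]; exact hn) a hst K L hK hL B C hBC.1 hBC.2 hker ?_
    intro w hw hws
    rw [Matrix.range_mulVecLin]
    by_contra hno
    exact hE2 ⟨rfl, w, hw, (smallRow_iff A _ w).2 hws, hno⟩
  | symmetric =>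
    exact sym_crit (hκ.resolve_left (by simp)) A₀ A h₀ hA (c := c) (hV_sym hc)
      (by rw [Fintype.card_fin]; exact hn) a hst K hK B hBC.1 hker
  | skew =>
    refine alt_crit (hκ.resolve_left (by simp)) A₀ A h₀ hA (c := c) (hV_skew hc)
      (by rw [Fintype.card_fin]; exact hn) a hst K hK B hBC.1 hker ?_
    intro k hk l hl z hk' hz
    rw [Matrix.range_mulVecLin]
    by_contra hno
    exact hE3 ⟨rfl, k, hk, l, hl, z, fun h => hk' ((small_iff A _ k).1 h),
      (small_iff A _ _).2 hz, hno⟩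

private lemma exists_spans (A : Fin N → Matrix (Fin n) (Fin n) F) {s s' t : ℕ}
    (K : Matrix (Fin n) (Fin s) F) (L : Matrix (Fin s') (Fin n) F)
    (hK : ∀ j, SmallCol A t (K.col j)) (hL : ∀ j, SmallRow A t (L.row j)) :
    ∃ I : Finset (Fin N), I.card ≤ (s + s') * t ∧ Spans A K L I := by
  obtain ⟨I, hI, hI'⟩ := exists_dirs (fun i => A i * K)
    (finrank_restrict A K fun j => (small_iff A t _).1 (hK j))
  have h1 : finrank F (Submodule.span F (Set.range fun i => L * A i)) ≤ s' * t := by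
    have h2 := finrank_restrict (fun i => (A i)ᵀ) Lᵀ (t := t) (by
      intro j
      have h3 := hL j
      rw [← small_iff]
      unfold SmallCol
      unfold SmallRow at h3
      have e : (fun i => (A i)ᵀ *ᵥ (L.row j)) = fun i => (L.row j) ᵥ* A i := by
        funext i
        rw [Matrix.mulVec_transpose]
      have e2 : (fun i => Lᵀ i j) = L.row j := rfl
      rw [e2]
      change finrank F (Submodule.span F (Set.range fun i => (A i)ᵀ *ᵥ (L.row j))) ≤ t
      rw [e]
      exact h3)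
    have h4 : (fun i => L * A i) = (Matrix.transposeLinearEquiv (Fin n) (Fin s') F F) ∘
        fun i => (A i)ᵀ * Lᵀ := by
      funext i
      show L * A i = ((A i)ᵀ * Lᵀ)ᵀ
      rw [Matrix.transpose_mul, Matrix.transpose_transpose, Matrix.transpose_transpose]
    rw [h4, Set.range_comp]
    have h5 : Submodule.span F ((Matrix.transposeLinearEquiv (Fin n) (Fin s') F F) ''
        Set.range fun i => (A i)ᵀ * Lᵀ) = (Submodule.span F (Set.range fun i => (A i)ᵀ * Lᵀ)).map
          (Matrix.transposeLinearEquiv (Fin n) (Fin s') F F).toLinearMap := by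
      rw [Submodule.map_span]
      rfl
    rw [h5, LinearEquiv.finrank_map_eq]
    exact h2
  obtain ⟨J, hJ, hJ'⟩ := exists_dirs (fun i => L * A i) h1
  refine ⟨I ∪ J, ?_, fun i => ?_, fun i => ?_⟩
  · refine (Finset.card_union_le _ _).trans ?_
    rw [Nat.add_mul]
    exact add_le_add hI hJ
  · refine Submodule.span_mono ?_ (hI' i)
    rintro _ ⟨j, rfl⟩
    exact ⟨⟨j.1, Finset.mem_union_left _ j.2⟩, rfl⟩
  · refine Submodule.span_mono ?_ (hJ' i)
    rintro _ ⟨j, rfl⟩
    exact ⟨⟨j.1, Finset.mem_union_right _ j.2⟩, rfl⟩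

end aux

/-- **Symbolic matrices whose coefficient space has codimension at most `c n`: local search, rank
formula, search with small vectors, kernels.** -/
theorem result {F : Type} [Field F] [Infinite F] {n N : ℕ} (κ : Kind)
    (hκ : κ = Kind.all ∨ (2 : F) ≠ 0) (c : ℕ)
    (A₀ : Matrix (Fin n) (Fin n) F) (A : Fin N → Matrix (Fin n) (Fin n) F)
    (h₀ : κ.Mem A₀) (hA : ∀ i, κ.Mem (A i))
    (hc : κ.dim n ≤ Module.finrank F (Submodule.span F (Set.range A)) + c * n)
    (T : Finset F) (hT : n < T.card) :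
    -- (1) local search
    (∀ a, (value A₀ A a).rank < symRank A₀ A → ∃ b, Improves A₀ A T (10 * (c + 2)) a b) ∧
    (10 * (c + 2) ≤ n →
      -- (2) the rank formula
      (∃ (u v : ℕ) (P : Matrix (Fin n) (Fin u) F) (Q : Matrix (Fin v) (Fin n) F),
        u ≤ 2 * c ∧ v ≤ 2 * c ∧ P.rank = u ∧ Q.rank = v ∧
        (∀ j, SmallCol A (4 * c + 7) (P.col j)) ∧ (∀ j, SmallRow A (4 * c + 7) (Q.row j)) ∧
        symRank A₀ A = κ.formula n (u - symRank (A₀ * P) (fun i => A i * P))
          (v - symRank (Q * A₀) (fun i => Q * A i))) ∧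
      -- (3) search with small vectors
      (∀ (s s' : ℕ) (K : Matrix (Fin n) (Fin s) F) (L : Matrix (Fin s') (Fin n) F),
        K.rank = s → L.rank = s' → (∀ j, SmallCol A (4 * c + 7) (K.col j)) →
        (∀ j, SmallRow A (4 * c + 7) (L.row j)) →
        s ≤ 2 * c ∧ s' ≤ 2 * c ∧
        (∃ I : Finset (Fin N), I.card ≤ (s + s') * (4 * c + 7) ∧ Spans A K L I) ∧
        ∀ (I : Finset (Fin N)) (S₁ S₂ : Finset F) (a : Fin N → F) (B C : Set (Fin n → F)),
          Spans A K L I → 0 ∈ S₁ → s + s' < S₁.card → s + s' + n < S₂.card →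
          SpanKernels (value A₀ A a) B C → (value A₀ A a).rank < symRank A₀ A →
          (∃ b, Improves A₀ A T 4 a b) ∨
          (∃ b, Shifts A₀ A K L I S₁ S₂ (s + s') a b) ∨
          Extends κ A (4 * c + 7) K L B C)) ∧
    -- (4) kernels
    (∀ (s s' : ℕ) (K : Matrix (Fin n) (Fin s) F) (L : Matrix (Fin s') (Fin n) F)
      (I : Finset (Fin N)), Spans A K L I → RowKernel A₀ A K I ∧ ColKernel A₀ A L I) := by
  refine ⟨part1 κ hκ c A₀ A h₀ hA hc T hT, fun hn => ⟨part2 κ hκ c A₀ A h₀ hA hc hn, ?_⟩,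
    fun s s' K L I hI => ⟨Pool.Agent.H22.DE.kernel_rows (A₀ * K) (fun i => A i * K) I hI.1,
      Pool.Agent.H22.DE.kernel_cols (L * A₀) (fun i => L * A i) I hI.2⟩⟩
  intro s s' K L hKr hLr hK hL
  obtain ⟨h1, h2⟩ := part3 κ hκ c A hA hc hn
  refine ⟨card_small h1 K hKr fun j => (small_iff A _ _).1 (hK j),
    card_smallRow h2 L hLr fun j => (smallRow_iff A _ _).1 (hL j), exists_spans A K L hK hL, ?_⟩
  intro I S₁ S₂ a B C hI h0 hS₁ hS₂ hBC ha
  have := Pool.Agent.H22.DE.progress A₀ A K L I hI.1 hI.2 T S₁ S₂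
    (by rw [Fintype.card_fin]; exact hT) h0 hS₁ (by rw [Fintype.card_fin]; exact hS₂) a _
    (part4 κ hκ c A₀ A h₀ hA hc hn K L a B C hBC) ha
  rcases this with ⟨b, hb⟩ | ⟨y, z, hz, hy1, hy2, hy3, hr, hr1, hr2, hr3⟩ | hE
  · exact Or.inl ⟨b, hb⟩
  · exact Or.inr (Or.inl ⟨a + z • y, ⟨y, z, hz, rfl, hy1, hy2, hy3⟩, hr, hr1, hr2, hr3⟩)
  · exact Or.inr (Or.inr hE)

end Pool.Agent.Results.MP_966f71_lc.DenseMatrices
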