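import Pool.Agent.H14.KG.Mixed

set_option autoImplicit false

namespace Pool.Agent.Results.MP_966f71_lc.HittingLocalSearch

open Pool.Agent.H14.KG

/-- The matrices `P_j(y) = A_{0,j} + ∑ c, φ_c(y) A_{c,j}`, `j = none` or `j = some i`. -/
noncomputable def entries {F : Type} [Field F] {n N a b : ℕ} {κ : Type} [Fintype κ]
    (A₀ : Option (Fin N) → Matrix (Fin a) (Fin b) F)
    (A : κ → Option (Fin N) → Matrix (Fin a) (Fin b) F) (φ : κ → Formula F n)
    (j : Option (Fin N)) : Matrix (Fin a) (Fin b) (MvPolynomial (Fin n) F) :=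
  pencil (A₀ j) (fun c => A c j) φ

/-- The matrix `M(h, x) = P_none(h) + ∑ i, x_i P_i(h)` over `F[x]`, for `h ∈ ℕ^n`. -/
noncomputable def atPoint {F : Type} [Field F] {n N a b : ℕ}
    (P : Option (Fin N) → Matrix (Fin a) (Fin b) (MvPolynomial (Fin n) F)) (h : Fin n → ℕ) :
    Matrix (Fin a) (Fin b) (MvPolynomial (Fin N) F) :=
  linMat fun j => valAt (P j) h

/-- The matrix `M(h, z)` over `F`, for `h ∈ ℕ^n` and `z ∈ F^N`. -/
noncomputable def valueAt {F : Type} [Field F] {n N a b : ℕ}
    (P : Option (Fin N) → Matrix (Fin a) (Fin b) (MvPolynomial (Fin n) F)) (h : Fin n → ℕ)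
    (z : Fin N → F) : Matrix (Fin a) (Fin b) F :=
  lin (valAt (P none) h) (fun i => valAt (P (some i)) h) z

/-- `z'` improves `z` at `h`: it lies in `T ^ N`, differs from `z` in at most five coordinates and
has a larger potential. -/
def ImprovesAt {F : Type} [Field F] {n N a b : ℕ}
    (P : Option (Fin N) → Matrix (Fin a) (Fin b) (MvPolynomial (Fin n) F)) (T : Finset F)
    (h : Fin n → ℕ) (z z' : Fin N → F) : Prop :=
  Improves (valAt (P none) h) (fun i => valAt (P (some i)) h) T z z'

/-- `z ∈ T ^ N` is stuck at `h`: nothing improves it. -/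
def StuckAt {F : Type} [Field F] {n N a b : ℕ}
    (P : Option (Fin N) → Matrix (Fin a) (Fin b) (MvPolynomial (Fin n) F)) (T : Finset F)
    (h : Fin n → ℕ) (z : Fin N → F) : Prop :=
  (∀ i, z i ∈ T) ∧ ∀ z', ¬ ImprovesAt P T h z z'

/-- **Edmonds' problem: an explicit set of points for the variables `y`; local search for linear
variables `x` with coefficient matrices of rank at most two.** -/
theorem result {F : Type} [Field F] [CharZero F] {n N a b : ℕ} {κ : Type} [Fintype κ]
    (A₀ : Option (Fin N) → Matrix (Fin a) (Fin b) F)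
    (A : κ → Option (Fin N) → Matrix (Fin a) (Fin b) F) (φ : κ → Formula F n) (s d : ℕ)
    (hs : ∑ k, occX A φ k ≤ s) (hd : ∀ c, (φ c).leafDeg ≤ d) :
    -- (1) for every block structure `β` that serves, the variables `y` are replaced by points
    (∀ (r m L : ℕ) (β : Fin n → Fin m), 2 ≤ L → Serves (fun k => max 1 (occX A φ k)) r L β →
      (symRank (mixedMatrix (entries A₀ A φ)) < r ↔
        ∀ h ∈ grid L β (s * d * L), symRank (atPoint (entries A₀ A φ) h) < r)) ∧
    (∀ (m L D : ℕ) (β : Fin n → Fin m), (grid L β D).card ≤ (D + 1) ^ (L + m)) ∧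
    -- (2) two block structures that serve
    (∀ r : ℕ, Serves (fun k => max 1 (occX A φ k)) r 2 (id : Fin n → Fin n)) ∧
    (∀ r w S : ℕ, 1 ≤ w → ∑ k, max 1 (occX A φ k) ≤ S →
      Serves (fun k => max 1 (occX A φ k)) r (min w r ^ 2 + 3 * w)
        (layout (fun k => max 1 (occX A φ k)) w S)) ∧
    (∀ r c S : ℕ, 1 ≤ c → S ≤ c ^ 3 →
      (min c r ^ 2 + 3 * c) + (2 * S / c + 1) ≤ 3 * c ^ 2 + 3 * c + 1) ∧
    -- (3) local search for the variables `x` if the matrices `P_i` have rank at most two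
    ((∀ i, symRank (entries A₀ A φ (some i)) ≤ 2) →
      ∀ T : Finset F, 3 * a * (N + 1) ^ 4 < T.card → ∀ h : Fin n → ℕ,
        (∃ z, StuckAt (entries A₀ A φ) T h z) ∧
        (∀ z, StuckAt (entries A₀ A φ) T h z →
          symRank (atPoint (entries A₀ A φ) h) = (valueAt (entries A₀ A φ) h z).rank) ∧
        (∀ (k : ℕ) (z : ℕ → Fin N → F),
          (∀ j < k, ImprovesAt (entries A₀ A φ) T h (z j) (z (j + 1))) →
          k ≤ 3 * a * (N + 1) ^ 4)) := by
  have hinf : Infinite F := inferInstance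
  refine ⟨fun r m L β hL hβ => mixed_block hL A₀ A φ β hβ hs hd,
    fun m L D β => card_grid_le L β D, fun r => serves_id _ r, ?_, ?_, ?_⟩
  · intro r w S hw hS
    exact layout_serves w S r hw _ (fun k => le_max_left _ _) hS
  · intro r c S hc hS
    have h1 : min c r ^ 2 ≤ c ^ 2 := Nat.pow_le_pow_left (min_le_left _ _) 2
    have h3 : 2 * S / c ≤ 2 * c ^ 2 := by
      refine Nat.div_le_of_le_mul ?_
      nlinarith [hS, pow_succ c 2]
    omega
  · intro h2 T hT h
    refine ⟨?_, ?_, ?_⟩
    · exact exists_stuck (valAt (entries A₀ A φ none) h)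
        (fun i => valAt (entries A₀ A φ (some i)) h) T (by omega)
    · intro z hz
      exact symRank_eq_of_stuck (fun j => valAt (entries A₀ A φ j) h)
        (fun i => (rank_eval_le _ _).trans (h2 i)) T hT z hz
    · intro k z hz
      exact chain_le _ _ T k z hz

end Pool.Agent.Results.MP_966f71_lc.HittingLocalSearch
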