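import Pool.Agent.H50.R2.MinMax
import Pool.Agent.H50.R2.Basic
import Pool.Agent.H20.Edm.Minor

set_option autoImplicit false

namespace Pool.Agent.Results.MP_966f71_lc.RankTwoMinMax

open Matrix Module

/-- Rank over the field of rational functions of a matrix of polynomials over `F`. -/
noncomputable def symRank {F : Type} [Field F] {m n N : ℕ}
    (M : Matrix (Fin m) (Fin n) (MvPolynomial (Fin N) F)) : ℕ :=
  (M.map (algebraMap (MvPolynomial (Fin N) F) (FractionRing (MvPolynomial (Fin N) F)))).rank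

/-- The matrix `B + ∑ x_i P_i Q_i`. -/
noncomputable def genericMatrix {F : Type} [Field F] {m n N : ℕ} (B : Matrix (Fin m) (Fin n) F)
    (P : Fin N → Matrix (Fin m) (Fin 2) F) (Q : Fin N → Matrix (Fin 2) (Fin n) F) :
    Matrix (Fin m) (Fin n) (MvPolynomial (Fin N) F) :=
  B.map MvPolynomial.C +
    ∑ i, (MvPolynomial.X i : MvPolynomial (Fin N) F) • (P i * Q i).map MvPolynomial.C

/-- Data on the index set `Fin N`: matrices `T_ij` of size `2 × 2` and vectors `mu_i`, `nu_i`
of length `2`. -/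
structure Data (F : Type) (N : ℕ) where
  T : Fin N → Fin N → Matrix (Fin 2) (Fin 2) F
  mu : Fin N → Fin 2 → F
  nu : Fin N → Fin 2 → F

/-- `k` is the solution of the linear system `k_i = mu_i + ∑_j x_j T_ij k_j`, and this system is
regular: the matrix with blocks `δ_ij - x_j T_ij` is invertible. -/
def Data.IsSol {F : Type} [Field F] {N : ℕ} (J : Data F N) (x : Fin N → F)
    (k : Fin N → Fin 2 → F) : Prop :=
  (Matrix.of fun p q : Fin N × Fin 2 =>
    (if p = q then 1 else 0) - J.T p.1 q.1 p.2 q.2 * x q.1).det ≠ 0 ∧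
  ∀ i, k i = J.mu i + ∑ j, x j • (J.T i j *ᵥ k j)

/-- Local oddness of the data on the set `S`: `mu_i` and `nu_i` are nonzero for `i ∈ S`, and for
every subset `R` of `S` with at most five elements (1) `∑ x_i nu_i k_i = 0` for all `x` supported
on `R` and solutions `k` at `x`; (2) if `i ≠ j` are in `R` and `nu_i T_ij mu_j = 0`, then
`k_i` and `k'_i` are parallel for all `x, x'` supported on `R` that differ at most at `j` and
solutions `k, k'` at `x, x'`. -/
structure Data.LocallyOdd {F : Type} [Field F] {N : ℕ} (J : Data F N) (S : Finset (Fin N)) :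
    Prop where
  mu_ne : ∀ i ∈ S, J.mu i ≠ 0
  nu_ne : ∀ i ∈ S, J.nu i ≠ 0
  odd : ∀ R ⊆ S, R.card ≤ 5 → ∀ x k, (∀ l, l ∉ R → x l = 0) → J.IsSol x k →
    ∑ i, x i * (J.nu i ⬝ᵥ k i) = 0
  gen : ∀ R ⊆ S, R.card ≤ 5 → ∀ i ∈ R, ∀ j ∈ R, i ≠ j → J.nu i ⬝ᵥ (J.T i j *ᵥ J.mu j) = 0 →
    ∀ x x' k k', (∀ l, l ∉ R → x l = 0) → (∀ l, l ∉ R → x' l = 0) →
      (∀ l, l ≠ j → x l = x' l) → J.IsSol x k → J.IsSol x' k' →
      k i 0 * k' i 1 = k i 1 * k' i 0

/-- Certificates for `B + ∑ x_i P_i Q_i`: a subspace `U` of pairs `(y, xi)`, subspaces `Y_i` of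
the plane, a collection `D` of disjoint nonempty sets of indices, a point `a` and data `J S`
for `S ∈ D` that is locally odd on `S`. -/
structure IsCert {F : Type} [Field F] {m n N : ℕ} (B : Matrix (Fin m) (Fin n) F)
    (P : Fin N → Matrix (Fin m) (Fin 2) F) (Q : Fin N → Matrix (Fin 2) (Fin n) F)
    (U : Submodule F ((Fin n → F) × (Fin N → Fin 2 → F)))
    (Y : Fin N → Submodule F (Fin 2 → F)) (D : Finset (Finset (Fin N)))
    (a : Fin N → F) (J : Finset (Fin N) → Data F N) : Prop where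
  ker : ∀ u ∈ U, B *ᵥ u.1 + ∑ i, P i *ᵥ u.2 i = 0
  nonempty : ∀ S ∈ D, S.Nonempty
  disjoint : ∀ S ∈ D, ∀ S' ∈ D, S ≠ S' → Disjoint S S'
  locallyOdd : ∀ S ∈ D, (J S).LocallyOdd S
  outside : ∀ u ∈ U, ∀ i, (∀ S ∈ D, i ∉ S) → Q i *ᵥ u.1 ∈ Y i ∧ u.2 i ∈ Y i
  sum_nu : ∀ u ∈ U, ∀ S ∈ D, ∑ i ∈ S, (J S).nu i ⬝ᵥ (u.2 i - a i • (Q i *ᵥ u.1)) = 0
  inside : ∀ u ∈ U, ∀ S ∈ D, ∃ t : F, ∀ i ∈ S, Q i *ᵥ u.1 =
    ∑ j ∈ S, (J S).T i j *ᵥ (u.2 j - a j • (Q j *ᵥ u.1)) + t • (J S).mu i

/-- `n + ∑ dim Y_i + ∑ (2 |S| - 1)`, the sums over the `i` outside all `S ∈ D`, and over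
`S ∈ D`. The value of a certificate is this number minus `dim U`. -/
noncomputable def total {F : Type} [Field F] {N : ℕ} (n : ℕ)
    (Y : Fin N → Submodule F (Fin 2 → F)) (D : Finset (Finset (Fin N))) : ℕ :=
  n + ∑ i with ∀ S ∈ D, i ∉ S, finrank F (Y i) + ∑ S ∈ D, (2 * S.card - 1)

section bridge

open Pool.Agent.H50.R2

variable {F : Type} [Field F] {m n N : ℕ}

/-- the block matrix of the data -/
def flat (J : Data F N) : Inst F (Fin N) :=
  ⟨Matrix.of fun p q => J.T p.1 q.1 p.2 q.2, fun p => J.mu p.1 p.2, fun p => J.nu p.1 p.2⟩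

/-- the data of a block matrix -/
def unflat (I : Inst F (Fin N)) : Data F N :=
  ⟨fun i j => blk I.T i j, fun i => H50.R2.vec I.mu i, fun i => H50.R2.vec I.nu i⟩

omit [Field F] in
lemma flat_unflat (I : Inst F (Fin N)) : flat (unflat I) = I := rfl

lemma sys_eq (J : Data F N) (x : Fin N → F) :
    (Matrix.of fun p q : Fin N × Fin 2 =>
      (if p = q then 1 else 0) - J.T p.1 q.1 p.2 q.2 * x q.1) = 1 - (flat J).T * dg x := by
  ext p q
  simp [flat, dg, Matrix.mul_diagonal, Matrix.one_apply]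

lemma isSol_iff (J : Data F N) (x : Fin N → F) (k : Fin N → Fin 2 → F) :
    J.IsSol x k ↔ (flat J).Reg x ∧ ∀ i, k i = H50.R2.vec ((flat J).k x) i := by
  unfold Data.IsSol Inst.Reg
  rw [sys_eq]
  constructor
  · rintro ⟨h1, h2⟩
    refine ⟨h1, ?_⟩
    have h3 := (flat J).k_unique (x := x) h1 (v := fun p => k p.1 p.2) (by
      intro i
      exact h2 i)
    intro i
    funext c
    exact congrFun h3 (i, c)
  · rintro ⟨h1, h2⟩
    refine ⟨h1, fun i => ?_⟩
    have h3 := (flat J).k_eq_on (x := x) (S := Finset.univ) h1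
      (fun i hi => absurd (Finset.mem_univ i) hi) i
    rw [h2 i, h3]
    congr 1
    refine Finset.sum_congr rfl fun j _ => ?_
    rw [h2 j]
    rfl

lemma exists_sol (J : Data F N) (x : Fin N → F) (h : (flat J).Reg x) :
    J.IsSol x fun i => H50.R2.vec ((flat J).k x) i :=
  (isSol_iff J x _).2 ⟨h, fun _ => rfl⟩

lemma locallyOdd_iff (J : Data F N) (S : Finset (Fin N)) :
    J.LocallyOdd S ↔ (flat J).LocOdd S := by
  constructor
  · rintro ⟨h1, h2, h3, h4⟩
    refine ⟨fun i hi => ⟨h1 i hi, h2 i hi⟩, fun R hR hc => ⟨?_, ?_⟩⟩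
    · intro x hx hr
      have := h3 R hR hc x _ hx (exists_sol J x hr)
      rw [(flat J).h_eq_on (S := Finset.univ) (fun i hi => absurd (Finset.mem_univ i) hi)]
      exact this
    · intro i hi j hj hij ht x y hx hy hl hrx hry
      have := h4 R hR hc i hi j hj hij ht x y _ _ hx hy hl (exists_sol J x hrx)
        (exists_sol J y hry)
      simp only [par, ar]
      linear_combination this
  · rintro ⟨h1, h2⟩
    refine ⟨fun i hi => (h1 i hi).1, fun i hi => (h1 i hi).2, ?_, ?_⟩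
    · intro R hR hc x k hx hk
      obtain ⟨hr, hk⟩ := (isSol_iff J x k).1 hk
      have := (h2 R hR hc).1 x hx hr
      rw [(flat J).h_eq_on (S := Finset.univ) (fun i hi => absurd (Finset.mem_univ i) hi)] at this
      rw [← this]
      refine Finset.sum_congr rfl fun i _ => ?_
      rw [hk i]
      rfl
    · intro R hR hc i hi j hj hij ht x x' k k' hx hx' hl hk hk'
      obtain ⟨hr, hk⟩ := (isSol_iff J x k).1 hk
      obtain ⟨hr', hk'⟩ := (isSol_iff J x' k').1 hk'
      have := (h2 R hR hc).2 i hi j hj hij ht x x' hx hx' hl hr hr'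
      simp only [par, ar] at this
      rw [hk i, hk' i]
      linear_combination this

/-- the flattened `P` -/
def flatP (P : Fin N → Matrix (Fin m) (Fin 2) F) : Matrix (Fin m) (Fin N × Fin 2) F :=
  Matrix.of fun r p => P p.1 r p.2

/-- the flattened `Q` -/
def flatQ (Q : Fin N → Matrix (Fin 2) (Fin n) F) : Matrix (Fin N × Fin 2) (Fin n) F :=
  Matrix.of fun p s => Q p.1 p.2 s

/-- pairs `(y, xi)` in the two forms -/
def pairEquiv (F : Type) [Field F] (n N : ℕ) :
    ((Fin n → F) × (Fin N × Fin 2 → F)) ≃ₗ[F] ((Fin n → F) × (Fin N → Fin 2 → F)) :=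
  LinearEquiv.prodCongr (LinearEquiv.refl F _) (LinearEquiv.curry F F (Fin N) (Fin 2))

lemma pair_fst (u : (Fin n → F) × (Fin N × Fin 2 → F)) : (pairEquiv F n N u).1 = u.1 := rfl

lemma pair_snd (u : (Fin n → F) × (Fin N × Fin 2 → F)) (i : Fin N) :
    (pairEquiv F n N u).2 i = H50.R2.vec u.2 i := rfl

lemma flatP_mulVec (P : Fin N → Matrix (Fin m) (Fin 2) F) (v : Fin N × Fin 2 → F) :
    flatP P *ᵥ v = ∑ i, P i *ᵥ H50.R2.vec v i := by
  funext r
  simp only [Matrix.mulVec, dotProduct, flatP, Matrix.of_apply, Finset.sum_apply]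
  rw [Fintype.sum_prod_type]
  rfl

lemma flatQ_mulVec (Q : Fin N → Matrix (Fin 2) (Fin n) F) (y : Fin n → F) (i : Fin N) :
    H50.R2.vec (flatQ Q *ᵥ y) i = Q i *ᵥ y := rfl

lemma cert_iff (B : Matrix (Fin m) (Fin n) F) (P : Fin N → Matrix (Fin m) (Fin 2) F)
    (Q : Fin N → Matrix (Fin 2) (Fin n) F)
    (U : Submodule F ((Fin n → F) × (Fin N × Fin 2 → F)))
    (Y : Fin N → Submodule F (Fin 2 → F)) (D : Finset (Finset (Fin N)))
    (a : Fin N → F) (J : Finset (Fin N) → Data F N) :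
    RankTwoMinMax.IsCert B P Q (U.map (pairEquiv F n N).toLinearMap) Y D a J ↔
      Pool.Agent.H50.R2.IsCert B (flatP P) (flatQ Q) U Y D a (fun S => flat (J S)) := by
  have key : ∀ p : (Fin n → F) × (Fin N → Fin 2 → F) → Prop,
      (∀ u ∈ U.map (pairEquiv F n N).toLinearMap, p u) ↔ ∀ u ∈ U, p (pairEquiv F n N u) := by
    intro p
    constructor
    · intro h u hu
      exact h _ (Submodule.mem_map_of_mem hu)
    · intro h u hu
      obtain ⟨v, hv, rfl⟩ := Submodule.mem_map.1 hu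
      exact h v hv
  constructor
  · rintro ⟨h1, h2, h3, h4, h5, h6, h7⟩
    rw [key] at h1 h5 h6 h7
    refine ⟨fun u hu => ?_, h2, h3, fun S hS => (locallyOdd_iff _ _).1 (h4 S hS), ?_, ?_, ?_⟩
    · rw [flatP_mulVec]
      exact h1 u hu
    · exact h5
    · exact h6
    · exact h7
  · rintro ⟨h1, h2, h3, h4, h5, h6, h7⟩
    refine ⟨(key _).2 fun u hu => ?_, h2, h3, fun S hS => (locallyOdd_iff _ _).2 (h4 S hS),
      (key _).2 ?_, (key _).2 ?_, (key _).2 ?_⟩
    · have := h1 u hu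
      rw [flatP_mulVec] at this
      exact this
    · exact h5
    · exact h6
    · exact h7

lemma total_eq (Y : Fin N → Submodule F (Fin 2 → F)) (D : Finset (Finset (Fin N))) :
    total n Y D = val (Fin n) Y D := by
  unfold total val
  congr 2
  · simp
  · refine Finset.sum_congr ?_ fun _ _ => rfl
    ext i
    simp

lemma lin_eq (B : Matrix (Fin m) (Fin n) F) (P : Fin N → Matrix (Fin m) (Fin 2) F)
    (Q : Fin N → Matrix (Fin 2) (Fin n) F) (x : Fin N → F) :
    (genericMatrix B P Q).map (MvPolynomial.eval x) = B + flatP P * dg x * flatQ Q := by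
  ext r s
  simp only [genericMatrix, Matrix.map_apply, Matrix.add_apply, Matrix.sum_apply,
    Matrix.smul_apply, smul_eq_mul, map_add, map_sum, map_mul, MvPolynomial.eval_X,
    MvPolynomial.eval_C, add_right_inj]
  rw [Matrix.mul_apply, Fintype.sum_prod_type]
  refine Finset.sum_congr rfl fun i _ => ?_
  rw [Matrix.mul_apply, Finset.mul_sum]
  refine Finset.sum_congr rfl fun c _ => ?_
  simp only [dg, Matrix.mul_diagonal, flatP, flatQ, Matrix.of_apply]
  ring

end bridge

lemma exists_eval {F : Type} [Field F] [Infinite F] {m n N : ℕ}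
    (M : Matrix (Fin m) (Fin n) (MvPolynomial (Fin N) F)) :
    ∃ x : Fin N → F, symRank M ≤ (M.map (MvPolynomial.eval x)).rank := by
  obtain ⟨f, g, hfg⟩ := (Pool.Agent.H20.Edm.sym_minor_iff M (symRank M)).1 le_rfl
  by_contra hcon
  push Not at hcon
  apply hfg
  apply MvPolynomial.funext
  intro x
  by_contra h0
  have h1 := Pool.Agent.H20.Edm.le_rank_of_minor (M.map (MvPolynomial.eval x)) f g
    (by rw [Pool.Agent.H20.Edm.eval_minor]; rw [map_zero] at h0; exact h0)
  have h2 := hcon x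
  omega

/-- **Min-max formula for the rank of `B + ∑ x_i P_i Q_i`, coefficient matrices of rank at most
two.** -/
theorem result {F : Type} [Field F] [Infinite F] {m n N : ℕ} (B : Matrix (Fin m) (Fin n) F)
    (P : Fin N → Matrix (Fin m) (Fin 2) F) (Q : Fin N → Matrix (Fin 2) (Fin n) F) :
    IsLeast {v : ℕ | ∃ (U : Submodule F ((Fin n → F) × (Fin N → Fin 2 → F)))
        (Y : Fin N → Submodule F (Fin 2 → F)) (D : Finset (Finset (Fin N))) (a : Fin N → F)
        (J : Finset (Fin N) → Data F N),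
        IsCert B P Q U Y D a J ∧ v + finrank F U = total n Y D}
      (symRank (genericMatrix B P Q)) := by
  have hmm := Pool.Agent.H50.R2.minmax B (flatP P) (flatQ Q)
  have hle : ∀ x : Fin N → F, (B + flatP P * Pool.Agent.H50.R2.dg x * flatQ Q).rank ≤
      symRank (genericMatrix B P Q) := by
    intro x
    rw [← lin_eq]
    exact Pool.Agent.H20.Edm.rank_eval_le _ x
  obtain ⟨x0, hx0⟩ := exists_eval (genericMatrix B P Q)
  rw [lin_eq] at hx0
  have hlow : ∀ (U : Submodule F ((Fin n → F) × (Fin N → Fin 2 → F)))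
      (Y : Fin N → Submodule F (Fin 2 → F)) (D : Finset (Finset (Fin N))) (a : Fin N → F)
      (J : Finset (Fin N) → Data F N), IsCert B P Q U Y D a J →
      symRank (genericMatrix B P Q) + finrank F U ≤ total n Y D := by
    intro U Y D a J hc
    obtain ⟨U', rfl⟩ : ∃ U' : Submodule F ((Fin n → F) × (Fin N × Fin 2 → F)),
        U = U'.map (pairEquiv F n N).toLinearMap := by
      refine ⟨U.map (pairEquiv F n N).symm.toLinearMap, ?_⟩
      rw [← Submodule.map_comp]
      simp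
    rw [LinearEquiv.finrank_map_eq]
    by_contra hcon
    push Not at hcon
    have h1 := (hmm (symRank (genericMatrix B P Q))).2
      ⟨U', Y, D, a, fun S => flat (J S), (cert_iff B P Q U' Y D a J).1 hc, by
        rw [← total_eq]; omega⟩ x0
    omega
  refine ⟨?_, ?_⟩
  · obtain ⟨U', Y, D, a, J, hc, hv⟩ := (hmm (symRank (genericMatrix B P Q) + 1)).1 fun x => by
      have := hle x
      omega
    have hc' : IsCert B P Q (U'.map (pairEquiv F n N).toLinearMap) Y D a
        (fun S => unflat (J S)) := (cert_iff B P Q U' Y D a _).2 hc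
    refine ⟨_, Y, D, a, _, hc', ?_⟩
    have h1 := hlow _ _ _ _ _ hc'
    rw [LinearEquiv.finrank_map_eq] at h1 ⊢
    rw [← total_eq] at hv
    omega
  · rintro v ⟨U, Y, D, a, J, hc, hv⟩
    have := hlow U Y D a J hc
    omega

end Pool.Agent.Results.MP_966f71_lc.RankTwoMinMax
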